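import Pool.Agent.H71MU.Unr

/-!
# Project MU, part GT: the construction of `N`
-/

set_option autoImplicit false
set_option linter.all false

open Polynomial

namespace Pool.Agent.H71MU

open Pool.Agent.H55.MU

/-- hypotheses -/
structure Hyp (G : Type) [Group G] [TopologicalSpace G] (𝓘 : Set (Subgroup G)) (p : ℕ)
    (Gm : ℕ → Subgroup G) (g : G) : Prop where
  conj : ∀ I ∈ 𝓘, ∀ x : G, I.map (MulAut.conj x).toMonoidHom ∈ 𝓘
  zero : Gm 0 = ⊤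
  anti : Antitone Gm
  opn : ∀ m, IsOpen (Gm m : Set G)
  nor : ∀ m, (Gm m).Normal
  idx : ∀ m, (Gm m).index = p ^ m
  gen : ∀ m, ∀ x : G, ∃ k : ℕ, g ^ k * x ∈ Gm m
  inI : ∃ I ∈ 𝓘, g ∈ I
  kinds : ∀ I ∈ 𝓘, (∀ m, I ≤ Gm m) ∨ (∀ m, ∃ s ∈ I, s * g⁻¹ ∈ Gm m)

namespace Hyp

variable {G : Type} [Group G] [TopologicalSpace G] {𝓘 : Set (Subgroup G)} {p : ℕ}
  {Gm : ℕ → Subgroup G} {g : G}

theorem orderOf_mk (h : Hyp G 𝓘 p Gm g) (m : ℕ) (k : ℤ) : g ^ k ∈ Gm m ↔ ((p ^ m : ℕ) : ℤ) ∣ k := by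
  haveI := h.nor m
  have h1 : ∀ x : G ⧸ Gm m, x ∈ Subgroup.zpowers (g : G ⧸ Gm m) := by
    intro x
    obtain ⟨y, rfl⟩ := QuotientGroup.mk_surjective x
    obtain ⟨k, hk⟩ := h.gen m y⁻¹
    refine ⟨k, ?_⟩
    have h2 : ((g ^ k * y⁻¹ : G) : G ⧸ Gm m) = 1 := (QuotientGroup.eq_one_iff _).2 hk
    rw [QuotientGroup.mk_mul, QuotientGroup.mk_inv, mul_inv_eq_one] at h2
    simp only [zpow_natCast]
    rw [← h2]
    rfl
  have h2 : orderOf (g : G ⧸ Gm m) = p ^ m := by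
    rw [orderOf_eq_card_of_forall_mem_zpowers h1, ← h.idx m]
    rfl
  rw [← h2, orderOf_dvd_iff_zpow_eq_one, ← QuotientGroup.mk_zpow, QuotientGroup.eq_one_iff]

theorem mem_iff (h : Hyp G 𝓘 p Gm g) (m k : ℕ) : g ^ k ∈ Gm m ↔ p ^ m ∣ k := by
  have := h.orderOf_mk m k
  rwa [zpow_natCast, Int.natCast_dvd_natCast] at this

theorem dec (h : Hyp G 𝓘 p Gm g) {m i : ℕ} (hi : i ≤ m) {x : G} (hx : x ∈ Gm i) :
    ∃ a ∈ Gm m, ∃ k : ℕ, x = a * (g ^ p ^ i) ^ k := by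
  obtain ⟨k, hk⟩ := h.gen m x⁻¹
  have h1 : x * (g ^ k)⁻¹ ∈ Gm m := by
    have := (Gm m).inv_mem hk
    rwa [mul_inv_rev, inv_inv] at this
  have h2 : g ^ k ∈ Gm i := by
    have h3 := (Gm i).mul_mem (h.anti hi hk) hx
    rwa [inv_mul_cancel_right] at h3
  obtain ⟨k', rfl⟩ := (h.mem_iff i k).1 h2
  refine ⟨_, h1, k', ?_⟩
  rw [← pow_mul, inv_mul_cancel_right]

theorem pow_mem (h : Hyp G 𝓘 p Gm g) (m : ℕ) (x : G) : x ^ p ^ m ∈ Gm m := by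
  haveI := h.nor m
  have h1 : (x : G ⧸ Gm m) ^ Nat.card (G ⧸ Gm m) = 1 := pow_card_eq_one'
  have h2 : Nat.card (G ⧸ Gm m) = p ^ m := h.idx m
  rwa [h2, ← QuotientGroup.mk_pow, QuotientGroup.eq_one_iff] at h1

theorem gpow (h : Hyp G 𝓘 p Gm g) {m : ℕ} {W : Subgroup G} (hW : Unr 𝓘 p (Gm m) W) : g ^ p ^ m ∈ W := by
  obtain ⟨I, hI, hg⟩ := h.inI
  exact hW.unr I hI ⟨I.pow_mem hg _, h.pow_mem m g⟩

variable {m : ℕ} {W : Subgroup G} [hWn : W.Normal]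

/-- the module -/
def dat (h : Hyp G 𝓘 p Gm g) (hW : Unr 𝓘 p (Gm m) W) : Dat (G ⧸ W) where
  A := (Gm m).map (QuotientGroup.mk' W)
  nor := (h.nor m).map _ (QuotientGroup.mk'_surjective W)
  comm := by
    rintro _ ⟨x, hx, rfl⟩ _ ⟨y, hy, rfl⟩
    have h1 := hW.comm x hx y hy
    have h2 : QuotientGroup.mk' W (x * y * x⁻¹ * y⁻¹) = 1 := (QuotientGroup.eq_one_iff _).2 h1
    rw [map_mul, map_mul, map_mul, map_inv, map_inv] at h2
    calc QuotientGroup.mk' W x * QuotientGroup.mk' W y =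
        (QuotientGroup.mk' W x * QuotientGroup.mk' W y * (QuotientGroup.mk' W x)⁻¹ *
          (QuotientGroup.mk' W y)⁻¹) * (QuotientGroup.mk' W y * QuotientGroup.mk' W x) := by group
      _ = _ := by rw [h2, one_mul]
  γ := QuotientGroup.mk' W g

variable (h : Hyp G 𝓘 p Gm g) (hW : Unr 𝓘 p (Gm m) W)

theorem dat_γ : (h.dat hW).γ = QuotientGroup.mk' W g := rfl

theorem mem_A {x : G} : QuotientGroup.mk' W x ∈ (h.dat hW).A ↔ x ∈ Gm m := by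
  constructor
  · rintro ⟨y, hy, hyx⟩
    have h1 : (y : G)⁻¹ * x ∈ W := QuotientGroup.eq.1 hyx
    have h2 := (Gm m).mul_mem hy (hW.le h1)
    rwa [mul_inv_cancel_left] at h2
  · exact fun hx => ⟨x, hx, rfl⟩

theorem γ_pow : (h.dat hW).γ ^ p ^ m = 1 := by
  rw [dat_γ, ← map_pow]
  exact (QuotientGroup.eq_one_iff _).2 (h.gpow hW)

theorem γ_zpow {k : ℤ} (hk : (h.dat hW).γ ^ k ∈ (h.dat hW).A) : (h.dat hW).γ ^ k = 1 := by
  have h1 : g ^ k ∈ Gm m := by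
    rw [← h.mem_A hW, map_zpow]
    exact hk
  obtain ⟨l, rfl⟩ := (h.orderOf_mk m k).1 h1
  rw [zpow_mul, zpow_natCast, h.γ_pow hW, one_zpow]

theorem gen' (x : G ⧸ W) : ∃ a ∈ (h.dat hW).A, ∃ k : ℕ, x = a * (h.dat hW).γ ^ k := by
  obtain ⟨y, rfl⟩ := QuotientGroup.mk'_surjective W x
  have hy : y ∈ Gm 0 := by rw [h.zero]; trivial
  obtain ⟨a, ha, k, hk⟩ := h.dec (Nat.zero_le m) hy
  refine ⟨QuotientGroup.mk' W a, (h.mem_A hW).2 ha, k, ?_⟩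
  rw [hk, pow_zero, pow_one, map_mul, map_pow, dat_γ]

/-- the subgroup `N` -/
def bigN (i : ℕ) (P : Submodule ℤ[X] (h.dat hW).V) : Subgroup G :=
  ((h.dat hW).sub P ⊔ Subgroup.zpowers ((h.dat hW).γ ^ p ^ i)).comap (QuotientGroup.mk' W)

theorem mem_bigN' (i : ℕ) (P : Submodule ℤ[X] (h.dat hW).V) (x : G) :
    x ∈ h.bigN hW i P ↔ QuotientGroup.mk' W x ∈
      (h.dat hW).sub P ⊔ Subgroup.zpowers ((h.dat hW).γ ^ p ^ i) := Iff.rfl

theorem normal_sub [Fact p.Prime] (P : Submodule ℤ[X] (h.dat hW).V) : ((h.dat hW).sub P).Normal :=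
  (h.dat hW).sub_normal P (pow_pos (Fact.out : p.Prime).pos m) (h.γ_pow hW) (h.gen' hW)

theorem mem_bigN [Fact p.Prime] (i : ℕ) (P : Submodule ℤ[X] (h.dat hW).V) (x : G) :
    x ∈ h.bigN hW i P ↔ ∃ b ∈ (h.dat hW).sub P, ∃ k : ℤ,
      b * ((h.dat hW).γ ^ p ^ i) ^ k = QuotientGroup.mk' W x := by
  haveI := h.normal_sub hW P
  unfold bigN
  rw [Subgroup.mem_comap, Subgroup.mem_sup_of_normal_left]
  constructor
  · rintro ⟨b, hb, z, ⟨k, rfl⟩, hz⟩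
    exact ⟨b, hb, k, hz⟩
  · rintro ⟨b, hb, k, hz⟩
    exact ⟨b, hb, _, ⟨k, rfl⟩, hz⟩

theorem le_bigN (i : ℕ) (P : Submodule ℤ[X] (h.dat hW).V) : W ≤ h.bigN hW i P := by
  intro x hx
  have h1 : QuotientGroup.mk' W x = 1 := (QuotientGroup.eq_one_iff _).2 hx
  unfold bigN
  rw [Subgroup.mem_comap, h1]
  exact Subgroup.one_mem _

theorem bigN_inf [Fact p.Prime] (i : ℕ) (P : Submodule ℤ[X] (h.dat hW).V) {x : G}
    (hx : x ∈ Gm m) (hN : x ∈ h.bigN hW i P) : QuotientGroup.mk' W x ∈ (h.dat hW).sub P := by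
  obtain ⟨b, hb, k, hk⟩ := (h.mem_bigN hW i P x).1 hN
  have h1 : ((h.dat hW).γ ^ p ^ i) ^ k ∈ (h.dat hW).A := by
    have h2 : ((h.dat hW).γ ^ p ^ i) ^ k = b⁻¹ * QuotientGroup.mk' W x := by
      rw [← hk, inv_mul_cancel_left]
    rw [h2]
    exact (h.dat hW).A.mul_mem ((h.dat hW).A.inv_mem ((h.dat hW).sub_le P hb)) ((h.mem_A hW).2 hx)
  have h2 : ((h.dat hW).γ ^ p ^ i) ^ k = (h.dat hW).γ ^ (((p ^ i : ℕ) : ℤ) * k) := by
    rw [zpow_mul, zpow_natCast]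
  rw [h2] at h1 hk
  rw [h.γ_zpow hW h1, mul_one] at hk
  rw [← hk]
  exact hb

theorem unrN [IsTopologicalGroup G] [Fact p.Prime] {i : ℕ} (hi : i ≤ m) (P : Submodule ℤ[X] (h.dat hW).V)
    (h1 : ∀ v, (((1 + X) ^ p ^ i - 1 : ℤ[X])) • v ∈ P)
    (h2 : ∀ (a : G) (ha : a ∈ Gm m), (∃ I ∈ 𝓘, a * g ∈ I) →
      nu p i • (Dat.elt (QuotientGroup.mk' W a) ((h.mem_A hW).2 ha) : (h.dat hW).V) ∈ P) :
    Unr 𝓘 p (Gm i) (h.bigN hW i P) := by
  have hp := (Fact.out : p.Prime)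
  have hle := h.le_bigN hW i P
  haveI := h.normal_sub hW P
  refine ⟨?_, Subgroup.isOpen_mono hle hW.opn, ?_, ?_, ?_⟩
  · intro x hx
    obtain ⟨b, hb, k, hk⟩ := (h.mem_bigN hW i P x).1 hx
    obtain ⟨y, hy, rfl⟩ : b ∈ (Gm m).map (QuotientGroup.mk' W) := (h.dat hW).sub_le P hb
    have h3 : QuotientGroup.mk' W (y * (g ^ p ^ i) ^ k) = QuotientGroup.mk' W x := by
      rw [map_mul, map_zpow, map_pow]
      exact hk
    have h4 : (y * (g ^ p ^ i) ^ k)⁻¹ * x ∈ W := QuotientGroup.eq.1 h3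
    have h5 : y * (g ^ p ^ i) ^ k ∈ Gm i :=
      (Gm i).mul_mem (h.anti hi hy) ((Gm i).zpow_mem ((h.mem_iff i _).2 dvd_rfl) k)
    have h6 := (Gm i).mul_mem h5 (h.anti hi (hW.le h4))
    rwa [mul_inv_cancel_left] at h6
  · intro x hx y hy
    rw [h.mem_bigN' hW]
    refine (le_sup_left : (h.dat hW).sub P ≤ _) ?_
    rw [map_mul, map_mul, map_mul, map_inv, map_inv]
    have h3 : ∀ x ∈ Gm i, ∃ a ∈ (h.dat hW).A, ∃ k : ℤ,
        QuotientGroup.mk' W x = a * ((h.dat hW).γ ^ p ^ i) ^ k := by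
      intro x hx
      obtain ⟨a, ha, k, hk⟩ := h.dec hi hx
      refine ⟨QuotientGroup.mk' W a, (h.mem_A hW).2 ha, k, ?_⟩
      rw [hk, map_mul, map_pow, map_pow, dat_γ, zpow_natCast]
    refine Dat.comm_mem (h.dat hW).A ((h.dat hW).sub P) (h.dat hW).comm ((h.dat hW).γ ^ p ^ i) ?_
      (h3 x hx) (h3 y hy)
    intro a ha
    refine ⟨_, h1 (Dat.elt a ha), ?_⟩
    rw [sub_smul, one_smul, sub_eq_add_neg, Dat.val_add, Dat.val_neg, Dat.pow_smul_val, Dat.val_elt]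
  · rintro I hI t ⟨ht, hti⟩
    rcases h.kinds I hI with h3 | h3
    · exact hle (hW.unr I hI ⟨ht, h3 m ht⟩)
    · obtain ⟨s, hs, hsg⟩ := h3 m
      obtain ⟨k, hk⟩ := h.gen m t⁻¹
      have h4 : g ^ k ∈ Gm i := by
        have h5 := (Gm i).mul_mem (h.anti hi hk) hti
        rwa [inv_mul_cancel_right] at h5
      obtain ⟨k', rfl⟩ := (h.mem_iff i k).1 h4
      have h5 : s ^ (p ^ i * k') * t⁻¹ ∈ Gm m := by
        haveI := h.nor m
        have h6 : (s : G ⧸ Gm m) = g := by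
          rw [← mul_inv_eq_one, ← QuotientGroup.mk_inv, ← QuotientGroup.mk_mul,
            QuotientGroup.eq_one_iff]
          exact hsg
        rw [← QuotientGroup.eq_one_iff] at hk ⊢
        rw [QuotientGroup.mk_mul, QuotientGroup.mk_pow] at hk ⊢
        rw [h6]
        exact hk
      have h6 : s ^ (p ^ i * k') * t⁻¹ ∈ W :=
        hW.unr I hI ⟨I.mul_mem (I.pow_mem hs _) (I.inv_mem ht), h5⟩
      have h7 : QuotientGroup.mk' W t = ((QuotientGroup.mk' W s) ^ p ^ i) ^ k' := by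
        have h8 : QuotientGroup.mk' W (s ^ (p ^ i * k') * t⁻¹) = 1 := (QuotientGroup.eq_one_iff _).2 h6
        rw [map_mul, map_inv, mul_inv_eq_one, map_pow, pow_mul] at h8
        exact h8.symm
      rw [h.mem_bigN' hW, h7]
      refine Subgroup.pow_mem _ ?_ _
      have h8 : QuotientGroup.mk' W s = QuotientGroup.mk' W (s * g⁻¹) * (h.dat hW).γ := by
        rw [dat_γ, ← map_mul, inv_mul_cancel_right]
      rw [h8, Dat.mul_pow_nuG]
      refine Subgroup.mul_mem _ ?_ ?_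
      · refine (le_sup_left : (h.dat hW).sub P ≤ _) ?_
        refine ⟨_, h2 (s * g⁻¹) hsg ⟨I, hI, by rwa [inv_mul_cancel_right]⟩, ?_⟩
        unfold nu
        rw [Dat.nu_smul_val, Dat.val_elt]
      · exact (le_sup_right : Subgroup.zpowers ((h.dat hW).γ ^ p ^ i) ≤ _) (Subgroup.mem_zpowers _)
  · obtain ⟨a, ha⟩ := hW.pp
    have h3 : (h.bigN hW i P).relIndex (Gm i) ∣ W.relIndex (Gm i) := Subgroup.relIndex_dvd_of_le_left _ hle
    have h4 : W.relIndex (Gm m) * (Gm m).relIndex (Gm i) = W.relIndex (Gm i) :=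
      Subgroup.relIndex_mul_relIndex _ _ _ hW.le (h.anti hi)
    have h5 : (Gm m).relIndex (Gm i) ∣ p ^ m := by
      rw [← h.idx m, ← Subgroup.relIndex_mul_index (h.anti hi)]
      exact dvd_mul_right _ _
    have h6 : (h.bigN hW i P).relIndex (Gm i) ∣ p ^ (a + m) := by
      rw [pow_add, ← ha]
      rw [← h4] at h3
      exact h3.trans (mul_dvd_mul_left _ h5)
    obtain ⟨b, -, hb⟩ := (Nat.dvd_prime_pow hp).1 h6
    exact ⟨b, hb⟩

end Hyp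

end Pool.Agent.H71MU
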