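import Pool.Agent.H71MU.Lev

/-!
# Project MU, part GT: growth of the orders of the maximal unramified abelian `p`-extensions
-/

set_option autoImplicit false
set_option linter.all false

open Polynomial

namespace Pool.Agent.H71MU

open Pool.Agent.H55.MU

namespace Hyp

variable {G : Type} [Group G] [TopologicalSpace G] {𝓘 : Set (Subgroup G)} {p : ℕ}
  {Gm : ℕ → Subgroup G} {g : G} {m : ℕ} {W : Subgroup G} [hWn : W.Normal]
  (h : Hyp G 𝓘 p Gm g) (hW : Unr 𝓘 p (Gm m) W)

theorem range_eq (f : ℤ[X]) (v : (h.dat hW).V) :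
    v ∈ LinearMap.range (LinearMap.lsmul ℤ[X] (h.dat hW).V f) ↔ ∃ w : (h.dat hW).V, f • w = v := Iff.rfl

theorem qc_le [IsTopologicalGroup G] [Fact p.Prime] {i b : ℕ} (hi : i ≤ m)
    (hb : ∀ N, Unr 𝓘 p (Gm i) N → N.relIndex (Gm i) ≤ b) : qc (h.dat hW).V (nu p i) ≤ b := by
  let P := LinearMap.range (LinearMap.lsmul ℤ[X] (h.dat hW).V (nu p i))
  have hN : Unr 𝓘 p (Gm i) (h.bigN hW i P) := by
    refine h.unrN hW hi P ?_ ?_
    · intro v
      refine ⟨(X : ℤ[X]) • v, ?_⟩
      change nu p i • (X : ℤ[X]) • v = _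
      rw [← mul_smul]
      unfold nu
      rw [Dat.nu_mul_X]
    · intro a ha _
      exact ⟨_, rfl⟩
  have h1 : (h.bigN hW i P).relIndex (Gm m) ≠ 0 := by
    intro h0
    have h2 := Subgroup.relIndex_dvd_of_le_left (Gm m) (h.le_bigN hW i P)
    rw [h0, zero_dvd_iff] at h2
    exact unr_ne hW h2
  refine le_trans ?_ ((Subgroup.relIndex_le_of_le_right (h.anti hi) (unr_ne hN)).trans (hb _ hN))
  haveI : Finite (Gm m ⧸ (h.bigN hW i P).subgroupOf (Gm m)) := Nat.finite_of_card_ne_zero h1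
  let F : (Gm m ⧸ (h.bigN hW i P).subgroupOf (Gm m)) → (h.dat hW).V ⧸ P :=
    Quotient.lift (fun x : Gm m => (Submodule.Quotient.mk
      (Dat.elt (QuotientGroup.mk' W (x : G)) ((h.mem_A hW).2 x.2)) : (h.dat hW).V ⧸ P)) (by
      intro x y hxy
      have h2 : x⁻¹ * y ∈ (h.bigN hW i P).subgroupOf (Gm m) := QuotientGroup.leftRel_apply.1 hxy
      rw [Subgroup.mem_subgroupOf] at h2
      push_cast at h2
      have h3 := h.bigN_inf hW i P ((Gm m).mul_mem ((Gm m).inv_mem x.2) y.2) h2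
      obtain ⟨v, hv, hv'⟩ := h3
      symm
      rw [Submodule.Quotient.eq]
      convert hv using 1
      apply Dat.val_inj
      rw [hv', sub_eq_add_neg, add_comm, Dat.val_add, Dat.val_neg, Dat.val_elt, Dat.val_elt, map_mul,
        map_inv])
  refine Nat.card_le_card_of_surjective F ?_
  intro q
  obtain ⟨v, rfl⟩ := Submodule.Quotient.mk_surjective _ q
  obtain ⟨x, hx, hxv⟩ : Dat.val v ∈ (Gm m).map (QuotientGroup.mk' W) := Dat.val_mem v
  refine ⟨QuotientGroup.mk ⟨x, hx⟩, ?_⟩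
  change Submodule.Quotient.mk _ = _
  congr 1
  exact Dat.val_inj hxv

theorem nu_zero [IsTopologicalGroup G] [Fact p.Prime] (hA : ∀ N, Unr 𝓘 p ⊤ N → N = ⊤) (v : (h.dat hW).V) :
    nu p m • v = 0 := by
  let P : Submodule ℤ[X] (h.dat hW).V := LinearMap.ker (LinearMap.lsmul ℤ[X] (h.dat hW).V (nu p m))
  have hP : ∀ w : (h.dat hW).V, w ∈ P ↔ nu p m • w = 0 := fun w => Iff.rfl
  have hN : Unr 𝓘 p (Gm 0) (h.bigN hW 0 P) := by
    refine h.unrN hW (Nat.zero_le m) P ?_ ?_
    · intro v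
      rw [hP, pow_zero, pow_one, add_sub_cancel_left, ← mul_smul]
      have h1 : nu p m * X = (1 + X) ^ p ^ m - 1 := by
        unfold nu
        rw [Dat.nu_mul_X]
      rw [h1, sub_smul, one_smul, (h.dat hW).pow_fix (h.γ_pow hW), sub_self]
    · rintro a ha ⟨I, hI, hag⟩
      have h0 : nu p 0 = 1 := by
        unfold nu
        simp
      rw [h0, one_smul, hP]
      apply Dat.val_inj
      unfold nu
      rw [Dat.nu_smul_val, Dat.val_elt, Dat.val_zero]
      have h1 := Dat.mul_pow_nuG (h.dat hW).γ (QuotientGroup.mk' W a) (p ^ m)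
      rw [h.γ_pow hW, mul_one] at h1
      rw [← h1, dat_γ, ← map_mul, ← map_pow]
      exact (QuotientGroup.eq_one_iff _).2 (hW.unr I hI ⟨I.pow_mem hag _, h.pow_mem m _⟩)
  rw [h.zero] at hN
  have hT := hA _ hN
  obtain ⟨x, hx, hxv⟩ : Dat.val v ∈ (Gm m).map (QuotientGroup.mk' W) := Dat.val_mem v
  have h1 : x ∈ h.bigN hW 0 P := by rw [hT]; trivial
  obtain ⟨w, hw, hw'⟩ := h.bigN_inf hW 0 P hx h1
  have h2 : w = v := Dat.val_inj (hw'.trans hxv)
  rw [← h2]
  exact hw

theorem card_V : Nat.card (h.dat hW).V = W.relIndex (Gm m) := by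
  have h1 := Subgroup.relIndex_ker (K := Gm m) (QuotientGroup.mk' W)
  rw [QuotientGroup.ker_mk'] at h1
  rw [h1]
  rfl

theorem fin_V [Fact p.Prime] : Finite (h.dat hW).V := by
  refine Nat.finite_of_card_ne_zero ?_
  rw [h.card_V hW]
  exact unr_ne hW

theorem pow_V {a : ℕ} (ha : W.relIndex (Gm m) = p ^ a) (v : (h.dat hW).V) : (p ^ a) • v = 0 := by
  apply Dat.val_inj
  rw [Dat.val_nsmul, Dat.val_zero]
  obtain ⟨x, hx, hxv⟩ : Dat.val v ∈ (Gm m).map (QuotientGroup.mk' W) := Dat.val_mem v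
  rw [← hxv, ← map_pow]
  exact (QuotientGroup.eq_one_iff _).2 (pow_mem_of_rel hW.le hW.comm ha x hx)

end Hyp

/-- additive maps which commute with the conjugations are linear -/
noncomputable def lin {Γ Γ' : Type} [Group Γ] [Group Γ'] (D : Dat Γ) (D' : Dat Γ') (f : D.V →+ D'.V)
    (hf : ∀ v, f (D.con v) = D'.con (f v)) : D.V →ₗ[ℤ[X]] D'.V where
  toFun := f
  map_add' := f.map_add
  map_smul' r v := by
    simp only [RingHom.id_apply]
    have hX : ∀ v, f ((X : ℤ[X]) • v) = (X : ℤ[X]) • f v := by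
      intro v
      rw [Dat.X_smul, Dat.X_smul, map_sub, hf]
    have hXn : ∀ (n : ℕ) (v : D.V), f ((X ^ n : ℤ[X]) • v) = (X ^ n : ℤ[X]) • f v := by
      intro n
      induction n with
      | zero => intro v; simp
      | succ n ih => intro v; rw [pow_succ, mul_smul, ih, hX, ← mul_smul]
    induction r using Polynomial.induction_on' with
    | add r s hr hs => rw [add_smul, map_add, hr, hs, add_smul]
    | monomial n a =>
      have h1 : (monomial n a : ℤ[X]) = (a : ℤ[X]) * X ^ n := by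
        rw [← C_mul_X_pow_eq_monomial]
        congr 1
      rw [h1, mul_smul, mul_smul, Int.cast_smul_eq_zsmul, Int.cast_smul_eq_zsmul, map_zsmul, hXn]

theorem main (hG : S_GROW) : S_GT := by
  intro G _ _ _ 𝓘 p l _ Gm c g h1 h2 h3 h4 h5 h6 h7 h8 h9 hA hc hl
  have h : Hyp G 𝓘 p Gm g := ⟨h1, h2, h3, h4, h5, h6, h7, h8, h9⟩
  have hp := (Fact.out : p.Prime)
  choose W hWn hWu hWm using fun m => least (p := p) (h5 m) (h4 m) h1 (c m) (hc m)
  haveI : ∀ m, (W m).Normal := hWn
  haveI : ∀ m, Finite (h.dat (hWu m)).V := fun m => h.fin_V (hWu m)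
  obtain ⟨C, hC⟩ := hG p l (fun i => (Finset.range (i + 1)).sup c) (fun m => (h.dat (hWu m)).V)
    (by
      intro m v
      obtain ⟨a, ha⟩ := (hWu m).pp
      exact ⟨a, h.pow_V (hWu m) ha v⟩)
    (by
      intro m v
      obtain ⟨a, ha⟩ := (hWu m).pp
      exact (h.dat (hWu m)).X_nil hp (h.γ_pow (hWu m)) (h.pow_V (hWu m) ha) v)
    (by
      intro m
      rcases Nat.eq_zero_or_pos m with rfl | hm
      · have h10 : W 0 = ⊤ := by
          have h11 := hWu 0
          rw [h2] at h11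
          exact hA _ h11
        have h12 : Nat.card (h.dat (hWu 0)).V = 1 := by
          rw [h.card_V, h10, Subgroup.relIndex_top_left]
        unfold qc
        refine (Nat.card_le_card_of_surjective _ (Submodule.Quotient.mk_surjective _)).trans ?_
        rw [h12]
        exact Nat.one_le_pow _ _ hp.pos
      · exact h.qc_le (hWu m) hm hl)
  refine ⟨C, fun m W' hW' => ?_⟩
  have h10 : W'.relIndex (Gm m) ≤ (W m).relIndex (Gm m) :=
    Subgroup.relIndex_le_of_le_left (hWm m _ hW') (unr_ne (hWu m))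
  refine h10.trans ?_
  rw [← h.card_V (hWu m)]
  refine hC m (h.dat (hWu m)).V (h.nu_zero (hWu m) hA) ?_ ?_
  · intro i
    have hsup : ∀ j ≤ i, c j ≤ (Finset.range (i + 1)).sup c := fun j hj =>
      Finset.le_sup (f := c) (Finset.mem_range.2 (Nat.lt_succ_of_le hj))
    rcases le_total i m with hi | hi
    · exact (h.qc_le (hWu m) hi (hc i)).trans (hsup i le_rfl)
    · refine le_trans ?_ ((h.qc_le (hWu m) le_rfl (hc m)).trans (hsup m hi))
      have h11 : LinearMap.range (LinearMap.lsmul ℤ[X] (h.dat (hWu m)).V (nu p m)) = ⊥ := by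
        rw [LinearMap.range_eq_bot]
        ext v
        exact h.nu_zero (hWu m) hA v
      unfold qc
      rw [h11]
      refine (Nat.card_le_card_of_surjective _ (Submodule.Quotient.mk_surjective _)).trans ?_
      exact (Nat.card_congr (Submodule.quotEquivOfEqBot _ rfl).toEquiv).ge
  · intro m' hm'
    have hle : W m' ≤ W m := by
      have h11 : Unr 𝓘 p (Gm m') (W m ⊓ Gm m') := by
        have hc' : ∀ x ∈ Gm m', ∀ y ∈ Gm m', x * y * x⁻¹ * y⁻¹ ∈ W m ⊓ Gm m' := fun x hx y hy =>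
          ⟨(hWu m).comm x (h3 hm' hx) y (h3 hm' hy), (Gm m').mul_mem ((Gm m').mul_mem
            ((Gm m').mul_mem hx hy) ((Gm m').inv_mem hx)) ((Gm m').inv_mem hy)⟩
        refine ⟨inf_le_right, ?_, hc', ?_, ?_⟩
        · rw [Subgroup.coe_inf]
          exact (hWu m).opn.inter (h4 m')
        · intro I hI
          exact le_inf ((inf_le_inf_left I (h3 hm')).trans ((hWu m).unr I hI)) inf_le_right
        · refine rel_pp inf_le_right hc' ?_ ?_
          · rw [Subgroup.inf_relIndex_right]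
            intro h0
            exact unr_ne (hWu m) (Subgroup.relIndex_eq_zero_of_le_right (h3 hm') h0)
          · intro x hx
            obtain ⟨a, ha⟩ := (hWu m).pp
            exact ⟨a, pow_mem_of_rel (hWu m).le (hWu m).comm ha x (h3 hm' hx),
              (Gm m').pow_mem hx _⟩
      exact (hWm m' _ h11).trans inf_le_left
    let π : G ⧸ W m' →* G ⧸ W m := QuotientGroup.map (W m') (W m) (MonoidHom.id G) hle
    have hπ : ∀ x : G, π (QuotientGroup.mk' (W m') x) = QuotientGroup.mk' (W m) x := fun x => rfl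
    have hmem : ∀ v : (h.dat (hWu m')).V, π (Dat.val v) ∈ (h.dat (hWu m)).A := by
      intro v
      obtain ⟨x, hx, hxv⟩ : Dat.val v ∈ (Gm m').map (QuotientGroup.mk' (W m')) := Dat.val_mem v
      rw [← hxv, hπ]
      exact (h.mem_A (hWu m)).2 (h3 hm' hx)
    let f : (h.dat (hWu m')).V →+ (h.dat (hWu m)).V :=
      { toFun := fun v => Dat.elt (π (Dat.val v)) (hmem v)
        map_zero' := Dat.val_inj (by rw [Dat.val_elt, Dat.val_zero, map_one, Dat.val_zero])
        map_add' := fun v w => Dat.val_inj (by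
          rw [Dat.val_elt, Dat.val_add, Dat.val_add, map_mul, Dat.val_elt, Dat.val_elt]) }
    refine ⟨lin _ _ f ?_, ?_⟩
    · intro v
      apply Dat.val_inj
      change π (Dat.val ((h.dat (hWu m')).con v)) = _
      rw [Dat.val_con, Dat.val_con, map_mul, map_mul, map_inv]
      rfl
    · intro v
      obtain ⟨x, hx, hxv⟩ : Dat.val v ∈ (Gm m).map (QuotientGroup.mk' (W m)) := Dat.val_mem v
      obtain ⟨k, hk⟩ := h7 m' x
      have h11 : g ^ k ∈ Gm m := by
        have h12 := (Gm m).mul_mem (h3 hm' hk) ((Gm m).inv_mem hx)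
        rwa [mul_inv_cancel_right] at h12
      obtain ⟨k', rfl⟩ := (h.mem_iff m k).1 h11
      refine ⟨Dat.elt (QuotientGroup.mk' (W m') (g ^ (p ^ m * k') * x)) ((h.mem_A (hWu m')).2 hk), ?_⟩
      apply Dat.val_inj
      change π (QuotientGroup.mk' (W m') (g ^ (p ^ m * k') * x)) = _
      rw [hπ, map_mul, pow_mul, map_pow]
      have h13 : QuotientGroup.mk' (W m) (g ^ p ^ m) = 1 := (QuotientGroup.eq_one_iff _).2 (h.gpow (hWu m))
      rw [h13, one_pow, one_mul]
      exact hxv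

end Pool.Agent.H71MU
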