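import Mathlib

/-!
# Project MU, part GT: an abelian normal subgroup as a module over `ℤ[X]`
-/

set_option autoImplicit false
set_option linter.all false

open Polynomial

namespace Pool.Agent.H71MU

/-- an abelian normal subgroup and an element -/
structure Dat (Γ : Type) [Group Γ] where
  A : Subgroup Γ
  nor : A.Normal
  comm : ∀ x ∈ A, ∀ y ∈ A, x * y = y * x
  γ : Γ

namespace Dat

variable {Γ : Type} [Group Γ]

/-- the abelian group -/
def V (D : Dat Γ) : Type := Additive D.A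

instance (D : Dat Γ) : AddCommGroup D.V :=
  { (inferInstance : AddGroup (Additive D.A)) with
    add_comm := fun x y => congrArg Additive.ofMul
      (Subtype.ext (D.comm _ (Additive.toMul x).2 _ (Additive.toMul y).2)) }

instance (D : Dat Γ) [Finite D.A] : Finite D.V := inferInstanceAs (Finite (Additive D.A))

/-- the element of the group -/
def val {D : Dat Γ} (v : D.V) : Γ := ((Additive.toMul (show Additive D.A from v) : D.A) : Γ)

/-- the element of the module -/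
def elt {D : Dat Γ} (x : Γ) (hx : x ∈ D.A) : D.V := Additive.ofMul (⟨x, hx⟩ : D.A)

theorem val_mem {D : Dat Γ} (v : D.V) : val v ∈ D.A := (Additive.toMul (show Additive D.A from v)).2

@[simp] theorem val_elt {D : Dat Γ} (x : Γ) (hx : x ∈ D.A) : val (elt x hx : D.V) = x := rfl

theorem val_inj {D : Dat Γ} {v w : D.V} (h : val v = val w) : v = w :=
  congrArg Additive.ofMul (Subtype.ext h : (Additive.toMul (show Additive D.A from v) : D.A) =
    Additive.toMul (show Additive D.A from w))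

@[simp] theorem elt_val {D : Dat Γ} (v : D.V) : elt (val v) (val_mem v) = v := val_inj rfl

@[simp] theorem val_add {D : Dat Γ} (v w : D.V) : val (v + w) = val v * val w := rfl

@[simp] theorem val_zero {D : Dat Γ} : val (0 : D.V) = 1 := rfl

@[simp] theorem val_neg {D : Dat Γ} (v : D.V) : val (-v) = (val v)⁻¹ := rfl

@[simp] theorem val_nsmul {D : Dat Γ} (n : ℕ) (v : D.V) : val (n • v) = val v ^ n := by
  induction n with
  | zero => simp
  | succ n ih => rw [succ_nsmul, val_add, ih, pow_succ]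

/-- conjugation -/
def con (D : Dat Γ) : D.V →+ D.V where
  toFun v := elt (D.γ * val v * D.γ⁻¹) (D.nor.conj_mem _ (val_mem v) D.γ)
  map_zero' := val_inj (by simp)
  map_add' v w := val_inj (by simp only [val_elt, val_add]; group)

theorem val_con (D : Dat Γ) (v : D.V) : val (D.con v) = D.γ * val v * D.γ⁻¹ := rfl

/-- the action of `X` -/
def phi (D : Dat Γ) : D.V →ₗ[ℤ] D.V := (D.con - AddMonoidHom.id D.V).toIntLinearMap

noncomputable instance (D : Dat Γ) : Module ℤ[X] D.V :=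
  Module.compHom D.V ((aeval (R := ℤ) D.phi : ℤ[X] →ₐ[ℤ] Module.End ℤ D.V) : ℤ[X] →+* Module.End ℤ D.V)

theorem smul_def (D : Dat Γ) (f : ℤ[X]) (v : D.V) :
    f • v = (aeval (R := ℤ) D.phi f : Module.End ℤ D.V) v := rfl

theorem X_smul (D : Dat Γ) (v : D.V) : (X : ℤ[X]) • v = D.con v - v := by
  rw [smul_def, aeval_X]
  rfl

theorem one_add_X_smul (D : Dat Γ) (v : D.V) : (1 + X : ℤ[X]) • v = D.con v := by
  rw [add_smul, one_smul, X_smul]
  abel

theorem pow_smul_val (D : Dat Γ) (j : ℕ) (v : D.V) :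
    val ((1 + X : ℤ[X]) ^ j • v) = D.γ ^ j * val v * (D.γ ^ j)⁻¹ := by
  induction j with
  | zero => simp
  | succ j ih =>
    rw [pow_succ', mul_smul, one_add_X_smul, val_con, ih, pow_succ']
    group

/-- `∏_(j < n) γ^j a γ^(-j)` -/
def nuG (γ : Γ) : ℕ → Γ → Γ
  | 0, _ => 1
  | n + 1, a => nuG γ n a * (γ ^ n * a * (γ ^ n)⁻¹)

theorem mul_pow_nuG (γ a : Γ) (n : ℕ) : (a * γ) ^ n = nuG γ n a * γ ^ n := by
  induction n with
  | zero => simp [nuG]
  | succ n ih =>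
    rw [pow_succ, ih, nuG, pow_succ]
    group

theorem nu_smul_val (D : Dat Γ) (n : ℕ) (v : D.V) :
    val ((∑ j ∈ Finset.range n, (1 + X : ℤ[X]) ^ j) • v) = nuG D.γ n (val v) := by
  induction n with
  | zero => simp [nuG]
  | succ n ih => rw [Finset.sum_range_succ, add_smul, val_add, ih, pow_smul_val, nuG]

theorem nu_mul_X (n : ℕ) : (∑ j ∈ Finset.range n, (1 + X : ℤ[X]) ^ j) * X = (1 + X) ^ n - 1 := by
  have h := geom_sum_mul (1 + X : ℤ[X]) n
  rwa [add_sub_cancel_left] at h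

theorem pow_fix (D : Dat Γ) {n : ℕ} (hn : D.γ ^ n = 1) (v : D.V) : (1 + X : ℤ[X]) ^ n • v = v :=
  val_inj (by rw [pow_smul_val, hn]; simp)

/-- `X` is nilpotent on `p`-groups. -/
theorem X_nil (D : Dat Γ) {p m a : ℕ} (hp : p.Prime) (hn : D.γ ^ (p ^ m) = 1)
    (ha : ∀ v : D.V, (p ^ a) • v = 0) (v : D.V) : ∃ k : ℕ, (X ^ k : ℤ[X]) • v = 0 := by
  obtain ⟨r, hr⟩ := exists_add_pow_prime_pow_eq hp (1 : ℤ[X]) X m
  have h1 : ∀ v : D.V, (X ^ (p ^ m) : ℤ[X]) • v = ((p : ℤ[X]) * (-(X * r))) • v := by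
    intro v
    have h2 := D.pow_fix hn v
    rw [hr, one_pow, mul_one] at h2
    have h3 : (X ^ p ^ m + (p : ℤ[X]) * X * r) • v = 0 := by
      have h4 : ((1 : ℤ[X]) + X ^ p ^ m + (p : ℤ[X]) * X * r) • v =
        v + (X ^ p ^ m + (p : ℤ[X]) * X * r) • v := by
        rw [add_assoc, add_smul, one_smul]
      rw [h4] at h2
      exact left_eq_add.1 h2.symm
    rw [add_smul] at h3
    rw [eq_neg_of_add_eq_zero_left h3, ← neg_smul]
    congr 1
    ring
  have h2 : ∀ (k : ℕ) (v : D.V), (X ^ (p ^ m * k) : ℤ[X]) • v = ((p : ℤ[X]) * (-(X * r))) ^ k • v := by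
    intro k
    induction k with
    | zero => intro v; simp
    | succ k ih =>
      intro v
      rw [Nat.mul_succ, pow_add, mul_smul, h1, smul_comm, ih, ← mul_smul, ← pow_succ']
  refine ⟨p ^ m * a, ?_⟩
  rw [h2, mul_pow, mul_comm, mul_smul]
  have h3 : ((p : ℤ[X]) ^ a) • v = (p ^ a) • v := by
    rw [← Nat.cast_pow, Nat.cast_smul_eq_nsmul]
  rw [h3, ha, smul_zero]

/-- the subgroup of `Γ` given by a submodule -/
def sub (D : Dat Γ) (P : Submodule ℤ[X] D.V) : Subgroup Γ where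
  carrier := {x | ∃ v ∈ P, val v = x}
  mul_mem' := by
    rintro _ _ ⟨v, hv, rfl⟩ ⟨w, hw, rfl⟩
    exact ⟨v + w, P.add_mem hv hw, rfl⟩
  one_mem' := ⟨0, P.zero_mem, rfl⟩
  inv_mem' := by
    rintro _ ⟨v, hv, rfl⟩
    exact ⟨-v, P.neg_mem hv, rfl⟩

theorem mem_sub (D : Dat Γ) (P : Submodule ℤ[X] D.V) (x : Γ) : x ∈ D.sub P ↔ ∃ v ∈ P, val v = x :=
  Iff.rfl

theorem sub_le (D : Dat Γ) (P : Submodule ℤ[X] D.V) : D.sub P ≤ D.A := by
  rintro _ ⟨v, -, rfl⟩
  exact val_mem v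

theorem conj_mem_sub (D : Dat Γ) (P : Submodule ℤ[X] D.V) {x : Γ} (hx : x ∈ D.sub P) :
    D.γ * x * D.γ⁻¹ ∈ D.sub P := by
  obtain ⟨v, hv, rfl⟩ := hx
  exact ⟨(1 + X : ℤ[X]) • v, P.smul_mem _ hv, by rw [one_add_X_smul, val_con]⟩

theorem sub_normal (D : Dat Γ) (P : Submodule ℤ[X] D.V) {n : ℕ} (hn0 : 0 < n) (hn : D.γ ^ n = 1)
    (hgen : ∀ x : Γ, ∃ a ∈ D.A, ∃ k : ℕ, x = a * D.γ ^ k) : (D.sub P).Normal := by
  constructor
  intro x hx y
  obtain ⟨a, ha, k, rfl⟩ := hgen y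
  have h1 : ∀ (k : ℕ) (x : Γ), x ∈ D.sub P → D.γ ^ k * x * (D.γ ^ k)⁻¹ ∈ D.sub P := by
    intro k
    induction k with
    | zero => intro x hx; simpa using hx
    | succ k ih =>
      intro x hx
      have := D.conj_mem_sub P (ih x hx)
      rw [pow_succ']
      convert this using 1
      group
  have h2 := h1 k x hx
  have h3 : a * D.γ ^ k * x * (a * D.γ ^ k)⁻¹ = D.γ ^ k * x * (D.γ ^ k)⁻¹ := by
    have h4 := D.comm a ha _ (D.sub_le P h2)
    calc a * D.γ ^ k * x * (a * D.γ ^ k)⁻¹ = a * (D.γ ^ k * x * (D.γ ^ k)⁻¹) * a⁻¹ := by group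
      _ = D.γ ^ k * x * (D.γ ^ k)⁻¹ * a * a⁻¹ := by rw [h4]
      _ = _ := by group
  rw [h3]
  exact h2

/-- commutators -/
theorem comm_mem (A B : Subgroup Γ) [B.Normal] (hA : ∀ x ∈ A, ∀ y ∈ A, x * y = y * x) (δ : Γ)
    (hδ : ∀ a ∈ A, δ * a * δ⁻¹ * a⁻¹ ∈ B) {x y : Γ} (hx : ∃ a ∈ A, ∃ k : ℤ, x = a * δ ^ k)
    (hy : ∃ a ∈ A, ∃ k : ℤ, y = a * δ ^ k) : x * y * x⁻¹ * y⁻¹ ∈ B := by
  obtain ⟨a, ha, k, rfl⟩ := hx
  obtain ⟨b, hb, l, rfl⟩ := hy
  let q := QuotientGroup.mk' B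
  have h1 : ∀ a ∈ A, Commute (q δ) (q a) := by
    intro a ha
    have h2 : q (δ * a * δ⁻¹ * a⁻¹) = 1 := (QuotientGroup.eq_one_iff _).2 (hδ a ha)
    rw [map_mul, map_mul, map_mul, map_inv, map_inv] at h2
    have h3 : q δ * q a = q a * q δ := by
      calc q δ * q a = (q δ * q a * (q δ)⁻¹ * (q a)⁻¹) * (q a * q δ) := by group
        _ = _ := by rw [h2, one_mul]
    exact h3
  have h2 : Commute (q a) (q b) := by
    have := congrArg q (hA a ha b hb)
    rwa [map_mul, map_mul] at this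
  have h3 : Commute (q (a * δ ^ k)) (q (b * δ ^ l)) := by
    rw [map_mul, map_mul, map_zpow, map_zpow]
    refine Commute.mul_left (Commute.mul_right h2 ?_) (Commute.mul_right ?_ ?_)
    · exact ((h1 a ha).zpow_left l).symm
    · exact (h1 b hb).zpow_left k
    · exact ((Commute.refl (q δ)).zpow_left k).zpow_right l
  rw [← QuotientGroup.eq_one_iff]
  change q _ = 1
  rw [map_mul, map_mul, map_mul, map_inv, map_inv, h3.eq]
  group

end Dat

end Pool.Agent.H71MU
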