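import Pool.Agent.H71MU.Mod
import Pool.Agent.H55.MU.GTStm

/-!
# Project MU, part GT: the least subgroup `W`
-/

set_option autoImplicit false
set_option linter.all false

open Polynomial

namespace Pool.Agent.H71MU

open Pool.Agent.H55.MU

variable {G : Type} [Group G]

theorem subgroupOf_normal {H W : Subgroup G} (hc : ∀ x ∈ H, ∀ y ∈ H, x * y * x⁻¹ * y⁻¹ ∈ W) (hW : W ≤ H) :
    (W.subgroupOf H).Normal := by
  constructor
  intro w hw h
  rw [Subgroup.mem_subgroupOf] at hw ⊢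
  have h1 := hc h h.2 w w.2
  have h2 := W.mul_mem h1 hw
  push_cast
  convert h2 using 1
  group

theorem pow_mem_of_rel {p a : ℕ} {H W : Subgroup G} (hW : W ≤ H)
    (hc : ∀ x ∈ H, ∀ y ∈ H, x * y * x⁻¹ * y⁻¹ ∈ W) (ha : W.relIndex H = p ^ a) (x : G) (hx : x ∈ H) :
    x ^ p ^ a ∈ W := by
  haveI := subgroupOf_normal hc hW
  have h1 : ((⟨x, hx⟩ : H) : H ⧸ W.subgroupOf H) ^ Nat.card (H ⧸ W.subgroupOf H) = 1 :=
    pow_card_eq_one'
  have h2 : Nat.card (H ⧸ W.subgroupOf H) = p ^ a := ha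
  rw [h2, ← QuotientGroup.mk_pow, QuotientGroup.eq_one_iff, Subgroup.mem_subgroupOf] at h1
  simpa using h1

theorem rel_pp {p : ℕ} [Fact p.Prime] {H W : Subgroup G} (hW : W ≤ H)
    (hc : ∀ x ∈ H, ∀ y ∈ H, x * y * x⁻¹ * y⁻¹ ∈ W) (hfin : W.relIndex H ≠ 0)
    (h : ∀ x ∈ H, ∃ k : ℕ, x ^ p ^ k ∈ W) : ∃ a : ℕ, W.relIndex H = p ^ a := by
  haveI := subgroupOf_normal hc hW
  haveI : Finite (H ⧸ W.subgroupOf H) := Nat.finite_of_card_ne_zero hfin
  have h1 : IsPGroup p (H ⧸ W.subgroupOf H) := by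
    intro q
    obtain ⟨x, rfl⟩ := QuotientGroup.mk_surjective q
    obtain ⟨k, hk⟩ := h x x.2
    refine ⟨k, ?_⟩
    rw [← QuotientGroup.mk_pow, QuotientGroup.eq_one_iff, Subgroup.mem_subgroupOf]
    simpa using hk
  exact IsPGroup.iff_card.1 h1

variable [TopologicalSpace G] [IsTopologicalGroup G] {𝓘 : Set (Subgroup G)} {p : ℕ}

omit [IsTopologicalGroup G] in
theorem unr_self {H : Subgroup G} (hH : IsOpen (H : Set G)) : Unr 𝓘 p H H where
  le := le_rfl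
  opn := hH
  comm := fun x hx y hy => H.mul_mem (H.mul_mem (H.mul_mem hx hy) (H.inv_mem hx)) (H.inv_mem hy)
  unr := fun I _ => inf_le_right
  pp := ⟨0, by rw [Subgroup.relIndex_self, pow_zero]⟩

omit [IsTopologicalGroup G] in
theorem unr_ne [Fact p.Prime] {H W : Subgroup G} (h : Unr 𝓘 p H W) : W.relIndex H ≠ 0 := by
  obtain ⟨a, ha⟩ := h.pp
  rw [ha]
  exact pow_ne_zero _ (Fact.out : p.Prime).ne_zero

omit [IsTopologicalGroup G] in
theorem unr_inf [Fact p.Prime] {H W W' : Subgroup G} (h : Unr 𝓘 p H W) (h' : Unr 𝓘 p H W') :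
    Unr 𝓘 p H (W ⊓ W') := by
  have hc : ∀ x ∈ H, ∀ y ∈ H, x * y * x⁻¹ * y⁻¹ ∈ W ⊓ W' :=
    fun x hx y hy => ⟨h.comm x hx y hy, h'.comm x hx y hy⟩
  refine ⟨inf_le_left.trans h.le, ?_, hc, fun I hI => le_inf (h.unr I hI) (h'.unr I hI), ?_⟩
  · rw [Subgroup.coe_inf]
    exact h.opn.inter h'.opn
  · refine rel_pp (inf_le_left.trans h.le) hc ?_ ?_
    · exact Subgroup.relIndex_inf_ne_zero (unr_ne h) (unr_ne h')
    · intro x hx
      obtain ⟨a, ha⟩ := h.pp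
      obtain ⟨b, hb⟩ := h'.pp
      refine ⟨a + b, ?_, ?_⟩
      · rw [pow_add, pow_mul]
        exact W.pow_mem (pow_mem_of_rel h.le h.comm ha x hx) _
      · rw [pow_add, mul_comm, pow_mul]
        exact W'.pow_mem (pow_mem_of_rel h'.le h'.comm hb x hx) _

theorem unr_conj {H W : Subgroup G} (hH : H.Normal) (h𝓘 : ∀ I ∈ 𝓘, ∀ x : G, I.map (MulAut.conj x).toMonoidHom ∈ 𝓘)
    (h : Unr 𝓘 p H W) (x : G) : Unr 𝓘 p H (W.comap (MulAut.conj x).toMonoidHom) := by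
  have hmem : ∀ y : G, y ∈ W.comap (MulAut.conj x).toMonoidHom ↔ x * y * x⁻¹ ∈ W := fun y => Iff.rfl
  refine ⟨?_, ?_, ?_, ?_, ?_⟩
  · intro y hy
    rw [hmem] at hy
    have h1 := hH.conj_mem _ (h.le hy) x⁻¹
    convert h1 using 1
    group
  · have : (W.comap (MulAut.conj x).toMonoidHom : Set G) = (fun y => x * y * x⁻¹) ⁻¹' (W : Set G) := rfl
    rw [this]
    exact h.opn.preimage (by fun_prop)
  · intro y hy z hz
    rw [hmem]
    have h1 := h.comm _ (hH.conj_mem _ hy x) _ (hH.conj_mem _ hz x)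
    convert h1 using 1
    group
  · rintro I hI y ⟨hy1, hy2⟩
    rw [hmem]
    exact h.unr _ (h𝓘 I hI x) ⟨⟨y, hy1, rfl⟩, hH.conj_mem _ hy2 x⟩
  · obtain ⟨a, ha⟩ := h.pp
    refine ⟨a, ?_⟩
    rw [Subgroup.relIndex_comap, ← ha]
    congr 1
    ext y
    constructor
    · rintro ⟨z, hz, rfl⟩
      exact hH.conj_mem _ hz x
    · intro hy
      refine ⟨x⁻¹ * y * x, ?_, ?_⟩
      · have := hH.conj_mem _ hy x⁻¹
        rwa [inv_inv] at this
      · change x * (x⁻¹ * y * x) * x⁻¹ = y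
        group

/-- the least subgroup -/
theorem least [Fact p.Prime] {H : Subgroup G} (hH : H.Normal) (hHo : IsOpen (H : Set G))
    (h𝓘 : ∀ I ∈ 𝓘, ∀ x : G, I.map (MulAut.conj x).toMonoidHom ∈ 𝓘) (c : ℕ)
    (hc : ∀ W, Unr 𝓘 p H W → W.relIndex H ≤ c) :
    ∃ W : Subgroup G, W.Normal ∧ Unr 𝓘 p H W ∧ ∀ W', Unr 𝓘 p H W' → W ≤ W' := by
  let S : Set ℕ := {r | ∃ W, Unr 𝓘 p H W ∧ W.relIndex H = r}
  have hb : BddAbove S := ⟨c, by
    rintro r ⟨W, hW, rfl⟩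
    exact hc W hW⟩
  have hS : sSup S ∈ S := Nat.sSup_mem ⟨_, H, unr_self hHo, rfl⟩ hb
  obtain ⟨W, hW, hr⟩ := hS
  have hmin : ∀ W', Unr 𝓘 p H W' → W ≤ W' := by
    intro W' hW'
    have h1 := unr_inf hW hW'
    have h2 : (W ⊓ W').relIndex H ≤ W.relIndex H := by
      rw [hr]
      exact le_csSup hb ⟨_, h1, rfl⟩
    have h3 : (W ⊓ W').relIndex W * W.relIndex H = (W ⊓ W').relIndex H :=
      Subgroup.relIndex_mul_relIndex _ _ _ inf_le_left hW.le
    have h4 : (W ⊓ W').relIndex W = 1 := by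
      have h5 : 0 < W.relIndex H := Nat.pos_of_ne_zero (unr_ne hW)
      have h6 : (W ⊓ W').relIndex W ≠ 0 := by
        intro h0
        rw [h0, zero_mul] at h3
        exact (unr_ne h1) h3.symm
      have h7 : (W ⊓ W').relIndex W * W.relIndex H ≤ 1 * W.relIndex H := by rw [h3, one_mul]; exact h2
      have h8 := Nat.le_of_mul_le_mul_right h7 h5
      omega
    exact (Subgroup.relIndex_eq_one.1 h4).trans inf_le_right
  refine ⟨W, ⟨fun w hw x => ?_⟩, hW, hmin⟩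
  exact hmin _ (unr_conj hH h𝓘 hW x) hw

end Pool.Agent.H71MU
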